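import Pool.Agent.P.MP_67c9d4_al.SP.Rfrs

/-! Virtually RFRS groups have property (VRC). -/

namespace Pool.Agent.P.MP_67c9d4_al.SP

open Equiv Wr Multiplicative FC

variable {G : Type} [Group G]

lemma RFRS.char (h : RFRS G) {g : G} (hg : g ≠ 1) :
    ∃ (M : Subgroup G) (_ : M.FiniteIndex) (f : M →* MZ) (hm : g ∈ M), f ⟨g, hm⟩ ≠ 1 := by
  classical
  obtain ⟨_, N, h0, -, h1, h2, h3⟩ := h
  have ex : ∃ i, g ∉ N i := by
    by_contra! hc
    exact hg (Subgroup.mem_bot.1 (h2 ▸ Subgroup.mem_iInf.2 hc))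
  obtain ⟨i, hi⟩ : ∃ i, Nat.find ex = i + 1 := Nat.exists_eq_succ_of_ne_zero fun e =>
    Nat.find_spec ex (by rw [e, h0]; trivial)
  have hm : g ∈ N i := not_not.1 (Nat.find_min ex (by omega))
  have := (h1 i).2
  obtain ⟨f, hf⟩ := char_of_not_rad (g := (⟨g, hm⟩ : N i)) fun hr =>
    Nat.find_spec ex (hi ▸ h3 i _ hr)
  exact ⟨N i, this, f, hm, hf⟩

/-- A virtual character that sees a power of `g` can be transferred to a subgroup that contains
`g`. -/
lemma transfer_char {M : Subgroup G} [M.FiniteIndex] (f : M →* MZ) {g : G} {m : ℕ}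
    (hm : g ^ m ∈ M) (hf : f ⟨_, hm⟩ ≠ 1) :
    ∃ (L : Subgroup G) (_ : L.FiniteIndex) (ψ : L →* MZ) (h : g ∈ L), ψ ⟨g, h⟩ ≠ 1 := by
  classical
  let C := M.normalCore
  let L := C ⊔ Subgroup.zpowers g
  have hL : L.FiniteIndex := Subgroup.finiteIndex_of_le (H := C) le_sup_left
  have hg : g ∈ L := Subgroup.mem_sup_right (Subgroup.mem_zpowers g)
  obtain ⟨n, hn, -, hC⟩ := Subgroup.exists_pow_mem_of_index_ne_zero
    (H := C) Subgroup.FiniteIndex.index_ne_zero (g ^ m)
  let K := C.subgroupOf L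
  let f' : K →* MZ := f.comp ((L.subtype.comp K.subtype).codRestrict M
    fun x => M.normalCore_le x.2)
  have := Fintype.ofFinite (L ⧸ K)
  refine ⟨L, hL, tot.comp (ind K f'), hg, fun e => ?_⟩
  let x : L := (⟨g, hg⟩ ^ m) ^ n
  have hx : x ∈ K := hC
  have h1 : tot (ind K f' x) = 1 := by
    rw [← MonoidHom.comp_apply, map_pow, map_pow, e, one_pow, one_pow]
  have h2 : ∀ y, (ind K f' x).c y = f ⟨_, hm⟩ ^ n := by
    intro y
    have hy : x⁻¹ • y = y := by
      conv_lhs => rw [← y.out_eq']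
      conv_rhs => rw [← y.out_eq']
      change ((x⁻¹ * y.out : L) : L ⧸ K) = _
      rw [QuotientGroup.eq]
      simpa [mul_assoc] using (inferInstance : K.Normal).conj_mem _ hx y.out⁻¹
    obtain ⟨c, hc, z, ⟨k, rfl⟩, hz⟩ := (Subgroup.mem_sup_of_normal_left).1 y.out.2
    let c' : M := ⟨(g ^ k)⁻¹ * c * g ^ k, M.normalCore_le (by
      simpa using (inferInstance : C.Normal).conj_mem _ hc (g ^ k)⁻¹)⟩
    have h3 : (ind K f' x).c y = f (c'⁻¹ * ⟨_, hm⟩ ^ n * c') := by
      change f _ = _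
      congr 1
      apply Subtype.ext
      have h4 : Commute ((g ^ m) ^ n) (g ^ k) :=
        (((Commute.refl g).zpow_right k).pow_left m).pow_left n
      change ((y.out : L) : G)⁻¹ * (g ^ m) ^ n * ((x⁻¹ • y).out : L) =
        ((g ^ k)⁻¹ * c * g ^ k)⁻¹ * (g ^ m) ^ n * ((g ^ k)⁻¹ * c * g ^ k)
      rw [hy, ← hz]
      have h5 : g ^ k * (g ^ m) ^ n * (g ^ k)⁻¹ = (g ^ m) ^ n := by
        rw [← h4.eq, mul_inv_cancel_right]
      conv_lhs => rw [← h5]
      group
    rw [h3, map_mul, map_mul, map_inv, map_pow]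
    simp [mul_comm]
  rw [tot_apply, Finset.prod_congr rfl fun y _ => h2 y, Finset.prod_const, ← pow_mul] at h1
  have h6 : n * (Finset.univ : Finset (L ⧸ K)).card ≠ 0 :=
    mul_ne_zero hn.ne' Finset.univ_nonempty.card_pos.ne'
  exact hf (isOfFinOrder_iff_pow_eq_one.2 ⟨_, Nat.pos_of_ne_zero h6, h1⟩).eq_one'

theorem vrc_of_vrfrs (h : Virtually RFRS G) : VRC G := by
  obtain ⟨K, hK, h⟩ := h
  intro g
  by_cases hg : IsOfFinOrder g
  · let C := K.normalCore
    let φ := (QuotientGroup.mk' C).comp (Subgroup.zpowers g).subtype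
    have hφ : Function.Injective φ := (injective_iff_map_eq_one φ).2 fun x hx => by
      by_contra hne
      have h1 : (x : G) ∈ K := K.normalCore_le ((QuotientGroup.eq_one_iff _).1 hx)
      obtain ⟨M, _, f, hm, hf⟩ := RFRS.char h (g := ⟨x, h1⟩) fun e =>
        hne (Subtype.ext (congrArg (fun y : K => (y : G)) e))
      have h2 : IsOfFinOrder (x : G) := by
        obtain ⟨x, k, rfl⟩ := x
        exact hg.zpow
      have h3 : IsOfFinOrder (⟨⟨x, h1⟩, hm⟩ : M) :=
        (Function.Injective.isOfFinOrder_iff (f := K.subtype.comp M.subtype)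
          (K.subtype_injective.comp M.subtype_injective)).1 h2
      exact hf (f.isOfFinOrder h3).eq_one'
    let L := φ.range.comap (QuotientGroup.mk' C)
    refine ⟨L, Subgroup.finiteIndex_of_le (H := C) fun c hc => ⟨1, ?_⟩,
      fun x hx => ⟨⟨x, hx⟩, rfl⟩, (MonoidHom.ofInjective hφ).symm.toMonoidHom.comp
        (((QuotientGroup.mk' C).comp L.subtype).codRestrict _ fun x => x.2), fun x hx => ?_⟩
    · rw [map_one]; exact ((QuotientGroup.eq_one_iff _).2 hc).symm
    · exact congrArg Subtype.val (hφ (a₂ := ⟨x, hx⟩) (MonoidHom.apply_ofInjective_symm hφ _))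
  · obtain ⟨m, hm, -, h1⟩ := Subgroup.exists_pow_mem_of_index_ne_zero hK.index_ne_zero g
    obtain ⟨M, hM, f, h2, hf⟩ := RFRS.char h (g := ⟨_, h1⟩) fun e =>
      hg (isOfFinOrder_iff_pow_eq_one.2 ⟨m, hm, congrArg Subtype.val e⟩)
    have h3 : (M.map K.subtype).FiniteIndex := ⟨by
      rw [Subgroup.index_map_subtype]; exact mul_ne_zero hM.index_ne_zero hK.index_ne_zero⟩
    let e := M.equivMapOfInjective _ K.subtype_injective
    obtain ⟨L, hL, ψ, h4, h5⟩ := transfer_char (f.comp e.symm.toMonoidHom) (g := g) (m := m)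
      ⟨_, h2, rfl⟩ (by
        have : (⟨g ^ m, ⟨_, h2, rfl⟩⟩ : M.map K.subtype) = e ⟨_, h2⟩ := rfl
        rw [this]; simpa using hf)
    let c := ψ ⟨g, h4⟩
    have hc : Function.Injective (zpowersHom MZ c) :=
      injective_zpow_iff_not_isOfFinOrder.2 fun h => h5 h.eq_one'
    let L' := (Subgroup.zpowers c).comap ψ
    have h6 : (Subgroup.zpowers c).FiniteIndex := ⟨by
      have h9 : Subgroup.zpowers c = (AddSubgroup.zmultiples c.toAdd).toSubgroup := by
        ext x; simp only [Subgroup.mem_zpowers_iff, Multiplicative.mem_toSubgroup,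
          AddSubgroup.mem_zmultiples_iff]
        exact exists_congr fun k => by rw [← toAdd_zpow]; exact toAdd.injective.eq_iff.symm
      rw [h9, AddSubgroup.index_toSubgroup, Int.index_zmultiples]
      exact Int.natAbs_ne_zero.2 fun h => h5 (toAdd.injective h)⟩
    have h7 := fi_comap (Subgroup.zpowers c) ψ
    let e' := L'.equivMapOfInjective _ L.subtype_injective
    obtain ⟨ρ, hρ⟩ := exists_lift hc (ψ.comp (L'.subtype.comp e'.symm.toMonoidHom))
      fun x => (e'.symm x).2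
    refine ⟨L'.map L.subtype, ⟨?_⟩, ?_, ((zpowersHom G g).comp ρ).codRestrict _
      fun x => ⟨_, rfl⟩, ?_⟩
    · rw [Subgroup.index_map_subtype]; exact mul_ne_zero h7.index_ne_zero hL.index_ne_zero
    · exact Subgroup.zpowers_le.2 ⟨⟨g, h4⟩, Subgroup.mem_zpowers _, rfl⟩
    · rintro x ⟨k, hk⟩
      have h8 : ρ x = ofAdd k := hc (by
        rw [hρ]
        have : L'.subtype (e'.symm x) = ⟨g, h4⟩ ^ k := Subtype.ext (by
          have := congrArg Subtype.val (e'.apply_symm_apply x)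
          exact this.trans hk.symm)
        simp only [MonoidHom.comp_apply, MulEquiv.coe_toMonoidHom, this, map_zpow]
        rfl)
      change zpowersHom G g (ρ x) = x
      rw [h8]; exact hk

end Pool.Agent.P.MP_67c9d4_al.SP
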