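import Pool.Agent.P.MP_67c9d4_al.SP.Spec
import Pool.Agent.P.MP_67c9d4_al.SP.Vrc
import Pool.Agent.P.MP_67c9d4_al.FC.All2

/-! The three properties agree on groups with a transverse cyclic hierarchy. -/

namespace Pool.Agent.P.MP_67c9d4_al.SP

lemma fg_range {G H : Type} [Group G] [Group H] (h : Group.FG G) (f : G →* H) : f.range.FG :=
  (Group.fg_iff_subgroup_fg _).1 inferInstance

lemma hier_fg {H : Type} [Group H] {χ : H →* Multiplicative ℤ} (h : Hier H χ) : Group.FG H := by
  induction h with
  | free V χ => infer_instance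
  | @hnn G _ A B φ a χ _ _ _ ih =>
    have : (HNNExtension.of (φ := φ)).range ⊔ Subgroup.closure {HNNExtension.t} = ⊤ :=
      eq_top_iff.2 fun x _ => by
        induction x using HNNExtension.induction_on with
        | of g => exact Subgroup.mem_sup_left ⟨g, rfl⟩
        | t => exact Subgroup.mem_sup_right (Subgroup.subset_closure rfl)
        | mul x y hx hy => exact mul_mem (hx trivial) (hy trivial)
        | inv x hx => exact inv_mem (hx trivial)
    exact ⟨this ▸ (fg_range ih _).sup ((Subgroup.fg_iff _).2 ⟨_, rfl, Set.finite_singleton _⟩)⟩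
  | amal φ χ _ _ ih =>
    have : ⨆ i, (Monoid.PushoutI.of (φ := φ) i).range = ⊤ :=
      eq_top_iff.2 fun x _ => by
        induction x using Monoid.PushoutI.induction_on with
        | of i g => exact Subgroup.mem_iSup_of_mem i ⟨g, rfl⟩
        | base g => exact Subgroup.mem_iSup_of_mem true ⟨_, Monoid.PushoutI.of_apply_eq_base φ _ g⟩
        | mul x y hx hy => exact mul_mem (hx trivial) (hy trivial)
    exact ⟨this ▸ Subgroup.FG.iSup _ fun i => fg_range (ih i) _⟩

theorem vrfrs_of_vspecial {G : Type} [Group G] (K : Subgroup G) [K.FiniteIndex] [Group.FG K]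
    (h : Virtually SpecialGroup G) : Virtually RFRS G := by
  obtain ⟨L, hL, h⟩ := h
  obtain ⟨T, Γ, f, hf⟩ := emb_of_special h
  have : Group.FG (K ⊓ L : Subgroup G) := Group.fg_of_surjective
    (f := (Subgroup.subgroupOfEquivOfLe (inf_le_left : K ⊓ L ≤ K)).toMonoidHom)
    (MulEquiv.surjective _)
  exact ⟨K ⊓ L, inferInstance, rfrs_of_emb (f.comp (Subgroup.inclusion inf_le_right))
    (hf.comp (Subgroup.inclusion_injective _))⟩

theorem tfae {G H : Type} [Group G] [Group H] (χ : H →* Multiplicative ℤ) (hH : Hier H χ)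
    (K : Subgroup G) [K.FiniteIndex] (e : K ≃* H) :
    List.TFAE [VRC G, Virtually RFRS G, Virtually SpecialGroup G] := by
  have := hier_fg hH
  have : Group.FG K := Group.fg_of_surjective (f := e.symm.toMonoidHom) e.symm.surjective
  tfae_have 1 → 3 := fun hv => by
    obtain ⟨L, hL, T, _, Γ, f, hf⟩ := FC.t_MAIN2 G H χ hH K e hv
    exact ⟨L, hL, special_of_emb f hf⟩
  tfae_have 3 → 2 := vrfrs_of_vspecial K
  tfae_have 2 → 1 := vrc_of_vrfrs
  tfae_finish

end Pool.Agent.P.MP_67c9d4_al.SP
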