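import Pool.Agent.P.MP_67c9d4_al.FC.HDefs

/-! RFRS groups, special square complexes and their fundamental groups. -/

namespace Pool.Agent.P.MP_67c9d4_al

open TensorProduct

/-- The kernel of the map from `G` to `H₁(G) ⊗ ℚ`. -/
def rad (G : Type) [Group G] : Set G :=
  {g | Additive.ofMul (Abelianization.of g) ⊗ₜ[ℤ] (1 : ℚ) = 0}

/-- Residually finite rationally solvable groups. -/
def RFRS (G : Type) [Group G] : Prop :=
  Group.FG G ∧ ∃ N : ℕ → Subgroup G, N 0 = ⊤ ∧ Antitone N ∧
    (∀ i, (N i).Normal ∧ (N i).FiniteIndex) ∧ ⨅ i, N i = ⊥ ∧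
    ∀ i (g : N i), g ∈ rad (N i) → (g : G) ∈ N (i + 1)

/-- A square complex: vertices `V`, oriented edges `D` with origin `o` and reversal `r`, and
squares given by their boundary paths (with all starting points and both directions). -/
structure SqCx where
  V : Type
  D : Type
  o : D → V
  r : D → D
  rr : ∀ a, r (r a) = a
  ne : ∀ a, r a ≠ a
  sq : D → D → D → D → Prop
  path : ∀ a b c d, sq a b c d → o (r a) = o b
  rot : ∀ a b c d, sq a b c d → sq b c d a
  flip : ∀ a b c d, sq a b c d → sq (r d) (r c) (r b) (r a)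

namespace SqCx
variable (X : SqCx)

/-- Parallel oriented edges: the equivalence relation generated by opposite sides of squares. -/
def Par : X.D → X.D → Prop := Relation.EqvGen fun a c => ∃ b d, X.sq a b (X.r c) d

/-- The two edges are dual to the same hyperplane. -/
def Wall (a b : X.D) : Prop := X.Par a b ∨ X.Par a (X.r b)

/-- Special in the sense of Haglund and Wise, with two-sided hyperplanes: links are simplicial,
hyperplanes are two-sided and embedded, do not directly self-osculate, do not inter-osculate. -/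
structure Special : Prop where
  noLoop : ∀ a b c d, X.sq a b c d → b ≠ X.r a
  noBigon : ∀ a b c d c' d', X.sq a b c d → X.sq a b c' d' → c = c' ∧ d = d'
  twoSided : ∀ a, ¬X.Par a (X.r a)
  embedded : ∀ a b c d, X.sq a b c d → ¬X.Wall a b
  noSelfOsc : ∀ a b, X.o a = X.o b → X.Par a b → a = b
  noInterOsc : ∀ a b c d a' b', X.sq a b c d → X.Wall a a' → X.Wall b b' → X.o a' = X.o b' →
    ∃ c' d', X.sq (X.r a') b' c' d'

/-- Edge paths. -/
inductive Pth : X.V → List X.D → X.V → Prop
  | nil (v : X.V) : Pth v [] v
  | cons (a : X.D) {p : List X.D} {w : X.V} : Pth (X.o (X.r a)) p w → Pth (X.o a) (a :: p) w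

/-- Elementary homotopies: remove a backtrack or the boundary of a square. -/
inductive Move : List X.D → List X.D → Prop
  | back (p q : List X.D) (a : X.D) : Move (p ++ [a, X.r a] ++ q) (p ++ q)
  | square (p q : List X.D) (a b c d : X.D) : X.sq a b c d → Move (p ++ [a, b, c, d] ++ q) (p ++ q)

/-- `K` is isomorphic to the fundamental group (edge path group) at `v`. -/
def IsPi1 (v : X.V) (K : Type) [Group K] : Prop :=
  ∃ θ : List X.D → K, (∀ k, ∃ p, X.Pth v p v ∧ θ p = k) ∧ ∀ p q, X.Pth v p v → X.Pth v q v →
    θ (p ++ q) = θ p * θ q ∧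
      (θ p = θ q ↔ Relation.EqvGen (fun p q => X.Pth v p v ∧ X.Move p q) p q)

end SqCx

/-- Fundamental groups of special complexes. -/
def SpecialGroup (K : Type) [Group K] : Prop := ∃ (X : SqCx) (v : X.V), X.Special ∧ X.IsPi1 v K

/-- Some finite index subgroup has the property. -/
def Virtually (P : ∀ (K : Type) [Group K], Prop) (G : Type) [Group G] : Prop :=
  ∃ K : Subgroup G, K.FiniteIndex ∧ P K

end Pool.Agent.P.MP_67c9d4_al
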