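import Pool.Agent.P.MP_67c9d4_al.SP.Cover

/-! Special groups are the subgroups of right-angled Artin groups. -/

namespace Pool.Agent.P.MP_67c9d4_al.SP

open FC Relation SqCx

section up
variable {X : SqCx}

lemma par_r {a b : X.D} (h : X.Par a b) : X.Par (X.r a) (X.r b) := by
  induction h with
  | rel a c h =>
    obtain ⟨b, d, h⟩ := h
    refine .symm _ _ (.rel _ _ ⟨d, b, ?_⟩)
    rw [X.rr]; exact X.rot _ _ _ _ (X.rot _ _ _ _ h)
  | refl => exact .refl _
  | symm _ _ _ ih => exact ih.symm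
  | trans _ _ _ _ _ ih ih' => exact ih.trans _ _ _ ih'

lemma par_r' {a b : X.D} (h : X.Par a (X.r b)) : X.Par (X.r a) b := X.rr b ▸ par_r h

/-- Hyperplanes. -/
def WS (X : SqCx) : Setoid X.D :=
  ⟨X.Wall, fun a => .inl (.refl a), fun h => h.elim (fun h => .inl h.symm)
    fun h => .inr (par_r' h).symm, fun h h' => by
      rcases h with h | h <;> rcases h' with h' | h'
      exacts [.inl (h.trans _ _ _ h'), .inr (h.trans _ _ _ h'), .inr (h.trans _ _ _ (par_r h')),
        .inl (h.trans _ _ _ (par_r' h'))]⟩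

lemma par_sq {a b c d : X.D} (h : X.sq a b c d) : X.Par (X.r a) c :=
  par_r' (.rel _ _ ⟨b, d, by rw [X.rr]; exact h⟩)

lemma mk_r (a : X.D) : Quotient.mk (WS X) (X.r a) = Quotient.mk (WS X) a :=
  Quotient.sound (.inr (.refl _))

/-- The crossing graph. -/
def cross (h : X.Special) : SimpleGraph (Quotient (WS X)) where
  Adj s t := ∃ a b c d, X.sq a b c d ∧ Quotient.mk _ a = s ∧ Quotient.mk _ b = t
  symm := ⟨by
    rintro _ _ ⟨a, b, c, d, hs, rfl, rfl⟩
    exact ⟨b, c, d, a, X.rot _ _ _ _ hs, rfl,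
      (Quotient.sound (s := WS X) (Or.inl (par_sq hs))).symm.trans (mk_r a)⟩⟩
  loopless := ⟨by
    rintro _ ⟨a, b, c, d, hs, rfl, e⟩
    exact h.embedded _ _ _ _ hs (Quotient.exact e.symm)⟩

open Classical in
/-- The label of an edge. -/
noncomputable def lab (a : X.D) : Quotient (WS X) × Bool :=
  (Quotient.mk _ a, decide (X.Par a (Quotient.mk (WS X) a).out))

lemma lab_eq {a b : X.D} : lab a = lab b ↔ X.Par a b := by
  have h : ∀ a : X.D, X.Wall a (Quotient.mk (WS X) a).out := fun a =>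
    Quotient.exact (s := WS X) (Quotient.out_eq _).symm
  simp only [lab, Prod.mk.injEq, decide_eq_decide]
  constructor
  · rintro ⟨e, e'⟩
    have h1 := h a
    have h2 := h b
    rw [e] at h1 e'
    by_cases h3 : X.Par b (Quotient.mk (WS X) b).out
    · exact (e'.2 h3).trans _ _ _ h3.symm
    · exact (h1.resolve_left (mt e'.1 h3)).trans _ _ _ (h2.resolve_left h3).symm
  · intro h1
    have e : Quotient.mk (WS X) a = Quotient.mk _ b := Quotient.sound (.inl h1)
    exact ⟨e, e ▸ ⟨h1.symm.trans _ _ _, h1.trans _ _ _⟩⟩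

lemma lab_r (h : X.Special) (a : X.D) : lab (X.r a) = ((lab a).1, !(lab a).2) := by
  have h1 : X.Wall a (Quotient.mk (WS X) a).out :=
    Quotient.exact (s := WS X) (Quotient.out_eq _).symm
  simp only [lab, mk_r, Prod.mk.injEq, true_and]
  by_cases h2 : X.Par a (Quotient.mk (WS X) a).out
  · simpa [h2, mk_r] using fun h3 : X.Par (X.r a) _ => h.twoSided a (h2.trans _ _ _ h3.symm)
  · simpa [h2, mk_r] using par_r' (h1.resolve_left h2)

lemma loc_lab (h : X.Special) : Loc X (cross h) lab where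
  rev := lab_r h
  inj a b e e' := h.noSelfOsc a b e (lab_eq.1 e')
  full a b e := by
    rintro ⟨a', b', c, d, hs, h1, h2⟩
    exact h.noInterOsc _ _ _ _ _ _ hs (Quotient.exact h1) (Quotient.exact h2) e
  sq a b c d hs := ⟨⟨a, b, c, d, hs, rfl, rfl⟩, (lab_eq.2 (par_sq hs)).symm.trans (lab_r h a)⟩

theorem emb_of_special {K : Type} [Group K] (h : SpecialGroup K) :
    ∃ (T : Type) (Γ : SimpleGraph T) (f : K →* RAAG Γ), Function.Injective f := by
  obtain ⟨X, v, h, θ, h1, h2⟩ := h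
  choose p hp e using h1
  have key : ∀ q q', X.Pth v q v → X.Pth v q' v →
      (wd (cross h) (q.map lab) = wd _ (q'.map lab) ↔ θ q = θ q') := fun q q' hq hq' =>
    ((loc_lab h).iff hq hq').trans (h2 q q' hq hq').2.symm
  refine ⟨_, cross h, MonoidHom.mk' (fun k => wd _ ((p k).map lab)) fun k l => ?_, fun k l hk => ?_⟩
  · rw [← wd_append, ← List.map_append, key _ _ (hp _) (pth_append.2 ⟨_, hp k, hp l⟩),
      (h2 _ _ (hp k) (hp l)).1, e, e, e]
  · rw [← e k, ← e l]; exact (key _ _ (hp k) (hp l)).1 hk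

end up

section down
variable {T : Type} {Γ : SimpleGraph T} (H : Subgroup (RAAG Γ))

/-- The end of an edge of a cover of the Salvetti complex. -/
def nx (a : (RAAG Γ ⧸ H) × T × Bool) : RAAG Γ ⧸ H := (wd Γ [a.2])⁻¹ • a.1

lemma nx_r (a : (RAAG Γ ⧸ H) × T × Bool) : nx H (nx H a, a.2.1, !a.2.2) = a.1 := by
  simp [nx, wd_not]

/-- The cover of the Salvetti complex that belongs to `H`. -/
@[reducible] def cov : SqCx where
  V := RAAG Γ ⧸ H
  D := (RAAG Γ ⧸ H) × T × Bool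
  o a := a.1
  r a := (nx H a, a.2.1, !a.2.2)
  rr a := by simp [nx_r]
  ne a h := by simpa using congrArg (·.2.2) h
  sq a b c d := Γ.Adj a.2.1 b.2.1 ∧ c.2 = (a.2.1, !a.2.2) ∧ d.2 = (b.2.1, !b.2.2) ∧
    nx H a = b.1 ∧ nx H b = c.1 ∧ nx H c = d.1 ∧ nx H d = a.1
  path a b c d h := h.2.2.2.1
  rot a b c d := by
    rintro ⟨h1, h2, h3, h4, h5, h6, h7⟩
    exact ⟨by rw [h2]; exact h1.symm, h3, by simp [h2], h5, h6, h7, h4⟩
  flip a b c d := by
    rintro ⟨h1, h2, h3, h4, h5, h6, h7⟩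
    simp only [nx_r]
    exact ⟨by rw [h2, h3]; exact h1.symm, by simp [h3], by simp [h2], h6.symm, h5.symm, h4.symm,
      h7.symm⟩

lemma cov_full (a b : (cov H).D) (e : a.1 = b.1) (adj : Γ.Adj a.2.1 b.2.1) :
    ∃ c d, (cov H).sq ((cov H).r a) b c d := by
  refine ⟨(nx H b, a.2), (nx H (nx H b, a.2), b.2.1, !b.2.2), adj, by simp, rfl,
    (nx_r H a).trans e, rfl, rfl, ?_⟩
  change (wd Γ [(b.2.1, !b.2.2)])⁻¹ • (wd Γ [a.2])⁻¹ • (wd Γ [b.2])⁻¹ • b.1 = (wd Γ [a.2])⁻¹ • a.1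
  rw [wd_not, inv_inv, smul_smul, smul_smul, e, ← (wd_comm adj).inv_left.eq]
  simp

lemma cov_par {a b : (cov H).D} (h : (cov H).Par a b) : a.2 = b.2 := by
  induction h with
  | rel a c h =>
    obtain ⟨b, d, h⟩ := h
    have := h.2.1
    exact Prod.ext (congrArg (·.1) this).symm (Bool.not_inj (congrArg (·.2) this)).symm
  | refl => rfl
  | symm _ _ _ ih => exact ih.symm
  | trans _ _ _ _ _ ih ih' => exact ih.trans ih'

lemma cov_wall {a b : (cov H).D} (h : (cov H).Wall a b) : a.2.1 = b.2.1 :=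
  h.elim (fun h => congrArg (·.1) (cov_par H h)) fun h => congrArg (·.1) (cov_par H h)

lemma cov_special : (cov H).Special where
  noLoop a b c d h e := h.1.ne (by rw [e])
  noBigon a b c d c' d' h h' := by
    have e : c = c' := Prod.ext (h.2.2.2.2.1.symm.trans h'.2.2.2.2.1) (h.2.1.trans h'.2.1.symm)
    subst e
    exact ⟨rfl, Prod.ext (h.2.2.2.2.2.1.symm.trans h'.2.2.2.2.2.1) (h.2.2.1.trans h'.2.2.1.symm)⟩
  twoSided a h := by simpa [cov] using congrArg (·.2) (cov_par H h)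
  embedded a b c d h e := h.1.ne (cov_wall H e)
  noSelfOsc a b e h := Prod.ext e (cov_par H h)
  noInterOsc a b c d a' b' h h1 h2 e :=
    cov_full H _ _ e (cov_wall H h1 ▸ cov_wall H h2 ▸ h.1)

lemma cov_loc : Loc (cov H) Γ Prod.snd :=
  ⟨fun _ => rfl, fun _ _ => Prod.ext, cov_full H, fun _ _ _ _ h => ⟨h.1, h.2.1⟩⟩

lemma cov_end {y y' : (cov H).V} {p : List (cov H).D} (h : (cov H).Pth y p y') :
    y' = (wd Γ (p.map Prod.snd))⁻¹ • y := by
  induction h with
  | nil => simp [wd_nil]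
  | cons a _ ih => rw [ih, List.map_cons, wd_cons, mul_inv_rev, mul_smul]; rfl

lemma cov_lift (L : List (T × Bool)) (y : (cov H).V) :
    ∃ p y', (cov H).Pth y p y' ∧ p.map Prod.snd = L := by
  induction L generalizing y with
  | nil => exact ⟨[], y, .nil _, rfl⟩
  | cons x L ih =>
    obtain ⟨p, y', h, rfl⟩ := ih (nx H (y, x))
    exact ⟨(y, x) :: p, y', .cons (X := cov H) (y, x) h, rfl⟩

end down

theorem special_of_emb {K T : Type} [Group K] {Γ : SimpleGraph T} (f : K →* RAAG Γ)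
    (hf : Function.Injective f) : SpecialGroup K := by
  have : Nonempty K := ⟨1⟩
  have h0 : ∀ g : RAAG Γ, ((1 : RAAG Γ) : RAAG Γ ⧸ f.range) = g⁻¹ • ((1 : RAAG Γ) : RAAG Γ ⧸ f.range)
      ↔ ∃ k, f k = g := fun g => by
    rw [MulAction.Quotient.smul_mk, QuotientGroup.eq]
    simp
  let v : (cov f.range).V := ((1 : RAAG Γ) : RAAG Γ ⧸ f.range)
  have h1 : ∀ p, (cov f.range).Pth v p v →
      f (Function.invFun f (wd Γ (p.map Prod.snd))) = wd Γ (p.map Prod.snd) := fun p hp =>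
    Function.invFun_eq ((h0 _).1 (cov_end _ hp))
  refine ⟨cov f.range, v, cov_special _, fun p => Function.invFun f (wd Γ (p.map Prod.snd)),
    fun k => ?_, fun p q hp hq => ⟨hf ?_, ?_⟩⟩
  · obtain ⟨L, hL⟩ := wd_surj (f k)
    obtain ⟨p, y, hp, rfl⟩ := cov_lift f.range L v
    obtain rfl : y = v := (cov_end _ hp).trans ((h0 _).2 ⟨k, hL.symm⟩).symm
    exact ⟨p, hp, hf ((h1 p hp).trans hL)⟩
  · rw [map_mul, h1 _ hp, h1 _ hq, h1 _ (pth_append.2 ⟨_, hp, hq⟩), List.map_append, wd_append]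
  · rw [← hf.eq_iff, h1 _ hp, h1 _ hq]
    exact (cov_loc _).iff hp hq

end Pool.Agent.P.MP_67c9d4_al.SP
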