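import Pool.Agent.P.MP_67c9d4_al.SP.Defs
import Pool.Agent.P.MP_67c9d4_al.FC.COMP1

/-! Local isometries to Salvetti complexes are injective on fundamental groups. -/

namespace Pool.Agent.P.MP_67c9d4_al.SP

open Equiv Wr Multiplicative FC Relation SqCx

variable {X : SqCx} {T : Type} {Γ : SimpleGraph T}

lemma pth_nil {u w : X.V} : X.Pth u [] w ↔ u = w :=
  ⟨fun h => by cases h; rfl, fun h => h ▸ .nil _⟩

lemma pth_cons {u w : X.V} {a : X.D} {p : List X.D} :
    X.Pth u (a :: p) w ↔ u = X.o a ∧ X.Pth (X.o (X.r a)) p w :=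
  ⟨fun h => by cases h with | cons _ h => exact ⟨rfl, h⟩, fun h => h.1 ▸ .cons a h.2⟩

lemma pth_append {u z : X.V} {p q : List X.D} :
    X.Pth u (p ++ q) z ↔ ∃ w, X.Pth u p w ∧ X.Pth w q z := by
  induction p generalizing u with
  | nil => simp [pth_nil]
  | cons a p ih => simp [pth_cons, ih, and_assoc]

lemma pth_uniq {u w w' : X.V} {p : List X.D} (h : X.Pth u p w) (h' : X.Pth u p w') : w = w' := by
  induction h with
  | nil => exact pth_nil.1 h'
  | cons a _ ih => exact ih (pth_cons.1 h').2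

lemma pth_sq {a b c d : X.D} (h : X.sq a b c d) : X.Pth (X.o a) [a, b, c, d] (X.o a) := by
  have h1 := X.rot _ _ _ _ h
  have h2 := X.rot _ _ _ _ h1
  simp [pth_cons, pth_nil, X.path _ _ _ _ h, X.path _ _ _ _ h1, X.path _ _ _ _ h2,
    X.path _ _ _ _ (X.rot _ _ _ _ h2)]

lemma pth_move {u w : X.V} {p q : List X.D} (h : X.Pth u p w) (m : X.Move p q) : X.Pth u q w := by
  cases m with
  | back p q a =>
    simp only [pth_append, pth_cons, pth_nil, X.rr] at h ⊢
    obtain ⟨_, ⟨_, h1, rfl, -, rfl⟩, h2⟩ := h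
    exact ⟨_, h1, h2⟩
  | square p q a b c d hs =>
    simp only [pth_append] at h ⊢
    obtain ⟨_, ⟨_, h1, h3⟩, h2⟩ := h
    obtain rfl := (pth_cons.1 h3).1
    obtain rfl := pth_uniq (pth_sq hs) h3
    exact ⟨_, h1, h2⟩

lemma move_append {p q : List X.D} (m : X.Move p q) (s : List X.D) :
    X.Move (p ++ s) (q ++ s) := by
  cases m with
  | back p q a => simpa using Move.back p (q ++ s) a
  | square p q a b c d hs => simpa using Move.square p (q ++ s) a b c d hs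

/-- Moves on paths that start at `v`. -/
def Rel (v : X.V) (p q : List X.D) : Prop := (∃ w, X.Pth v p w) ∧ X.Move p q

variable {v : X.V}

lemma eqv_end {p q : List X.D} (h : EqvGen (Rel v) p q) (w : X.V) :
    X.Pth v p w ↔ X.Pth v q w := by
  induction h with
  | rel p q h =>
    obtain ⟨⟨w', h⟩, m⟩ := h
    exact ⟨fun h' => pth_move h' m, fun h' => pth_uniq (pth_move h m) h' ▸ h⟩
  | refl => rfl
  | symm _ _ _ ih => exact ih.symm
  | trans _ _ _ _ _ ih ih' => exact ih.trans ih'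

lemma eqv_append {p q s : List X.D} (h : EqvGen (Rel v) p q) {w z : X.V} (hp : X.Pth v p w)
    (hs : X.Pth w s z) : EqvGen (Rel v) (p ++ s) (q ++ s) := by
  induction h with
  | rel p q h => exact .rel _ _ ⟨⟨z, pth_append.2 ⟨w, hp, hs⟩⟩, move_append h.2 s⟩
  | refl => exact .refl _
  | symm _ _ h ih => exact (ih ((eqv_end h w).2 hp)).symm
  | trans _ _ _ h _ ih ih' => exact (ih hp).trans _ _ _ (ih' ((eqv_end h w).1 hp))

lemma eqv_loop {p q : List X.D} (h : EqvGen (Rel v) p q) (hp : X.Pth v p v) :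
    EqvGen (fun p q => X.Pth v p v ∧ X.Move p q) p q := by
  induction h with
  | rel p q h => exact .rel _ _ ⟨hp, h.2⟩
  | refl => exact .refl _
  | symm _ _ h ih => exact (ih ((eqv_end h v).2 hp)).symm
  | trans _ _ _ h _ ih ih' => exact (ih hp).trans _ _ _ (ih' ((eqv_end h v).1 hp))

/-- A local isometry to the Salvetti complex. -/
structure Loc (X : SqCx) (Γ : SimpleGraph T) (lab : X.D → T × Bool) : Prop where
  rev : ∀ a, lab (X.r a) = ((lab a).1, !(lab a).2)
  inj : ∀ a b, X.o a = X.o b → lab a = lab b → a = b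
  full : ∀ a b, X.o a = X.o b → Γ.Adj (lab a).1 (lab b).1 → ∃ c d, X.sq (X.r a) b c d
  sq : ∀ a b c d, X.sq a b c d → Γ.Adj (lab a).1 (lab b).1 ∧ lab c = ((lab a).1, !(lab a).2)

variable {lab : X.D → T × Bool}

/-- Edges of the universal cover. -/
def UM (v : X.V) (lab : X.D → T × Bool) (x : T × Bool) (y y' : Quot (Rel v)) : Prop :=
  ∃ p a, X.Pth v p (X.o a) ∧ lab a = x ∧ y = Quot.mk _ p ∧ y' = Quot.mk _ (p ++ [a])

lemma pth_one (a : X.D) : X.Pth (X.o a) [a] (X.o (X.r a)) := .cons a (.nil _)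

lemma Loc.cx (h : Loc X Γ lab) (v : X.V) : Cx Γ (UM v lab) where
  det := by
    rintro _ _ _ _ ⟨p, a, hp, rfl, rfl, rfl⟩ ⟨q, b, hq, e, e', rfl⟩
    have h1 := Quot.eq.1 e'
    obtain rfl := h.inj _ _ (pth_uniq hq ((eqv_end h1 _).1 hp)) e
    exact Quot.eq.2 (eqv_append h1 hp (pth_one _))
  inv := by
    rintro _ _ _ ⟨p, a, hp, rfl, rfl, rfl⟩
    have h1 := pth_append.2 ⟨_, hp, pth_one a⟩
    refine ⟨p ++ [a], X.r a, h1, h.rev a, rfl, (Quot.sound ⟨⟨_, pth_append.2 ⟨_, h1, pth_one _⟩⟩,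
      ?_⟩).symm⟩
    simpa using Move.back p [] a
  sq := by
    rintro _ _ _ _ _ adj ⟨p, a, hp, rfl, rfl, rfl⟩ ⟨q, b, hq, rfl, e', rfl⟩
    have h1 := Quot.eq.1 e'
    have h2 := pth_uniq ((eqv_end h1 _).1 hp) hq
    obtain ⟨c, d, hs⟩ := h.full a b h2 adj
    have hs1 := X.rot _ _ _ _ hs
    have hs2 := X.rot _ _ _ _ hs1
    have hs3 := X.rot _ _ _ _ hs2
    have e1 := X.path _ _ _ _ hs1
    have e2 := X.path _ _ _ _ hs2
    have e3 := X.path _ _ _ _ hs3
    have hb : X.Pth (X.o a) [b, c] (X.o d) := by simp [pth_cons, pth_nil, h2, e1, e2]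
    refine ⟨Quot.mk _ (q ++ [b] ++ [c]), ⟨p ++ [a], X.r d, ?_, ?_, rfl, ?_⟩,
      q ++ [b], c, ?_, ?_, rfl, rfl⟩
    · exact e3 ▸ pth_append.2 ⟨_, hp, pth_one a⟩
    · rw [h.rev, (h.sq _ _ _ _ hs1).2]; simp
    · have h3 : X.Pth v (p ++ [b, c, d, X.r d]) (X.o d) := pth_append.2 ⟨_, hp, by
        simp [pth_cons, pth_nil, h2, e1, e2, X.rr]⟩
      have h4 : X.Pth v (p ++ [a, X.r a, b, c, d, X.r d]) (X.o d) := pth_append.2 ⟨_, hp, by
        simp [pth_cons, pth_nil, h2, e1, e2, X.rr]⟩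
      have h5 : Quot.mk (Rel v) (p ++ [b, c, d, X.r d]) = Quot.mk _ (p ++ [b, c]) :=
        Quot.sound ⟨⟨_, h3⟩, by simpa using Move.back (p ++ [b, c]) [] d⟩
      have h6 : Quot.mk (Rel v) (p ++ [a, X.r a, b, c, d, X.r d]) =
          Quot.mk _ (p ++ [b, c, d, X.r d]) :=
        Quot.sound ⟨⟨_, h4⟩, by simpa using Move.back p [b, c, d, X.r d] a⟩
      have h7 : Quot.mk (Rel v) (p ++ [a, X.r a, b, c, d, X.r d]) =
          Quot.mk _ (p ++ [a] ++ [X.r d]) :=
        Quot.sound ⟨⟨_, h4⟩, by simpa using Move.square (p ++ [a]) [X.r d] _ _ _ _ hs⟩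
      rw [← h7, h6, h5]
      simpa using (Quot.eq.2 (eqv_append h1 hp hb)).symm
    · exact e1 ▸ pth_append.2 ⟨_, hq, pth_one b⟩
    · rw [(h.sq _ _ _ _ hs).2, h.rev]; simp

lemma Loc.move (h : Loc X Γ lab) {p q : List X.D} (m : X.Move p q) :
    wd Γ (p.map lab) = wd Γ (q.map lab) := by
  cases m with
  | back p q a =>
    simp only [List.map_append, wd_append, List.map_cons, List.map_nil, h.rev]
    rw [wd_cons, wd_not]; simp
  | square p q a b c d hs =>
    obtain ⟨adj, e⟩ := h.sq _ _ _ _ hs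
    simp only [List.map_append, wd_append, List.map_cons, List.map_nil, e,
      (h.sq _ _ _ _ (X.rot _ _ _ _ hs)).2]
    rw [wd_cons, wd_cons (lab b), wd_cons (_, !_) [_], wd_not, wd_not, ← mul_assoc (wd Γ [lab a]),
      (wd_comm adj).eq]
    simp [mul_assoc]

theorem Loc.iff (h : Loc X Γ lab) {p q : List X.D} (hp : X.Pth v p v) (hq : X.Pth v q v) :
    wd Γ (p.map lab) = wd Γ (q.map lab) ↔
      EqvGen (fun p q => X.Pth v p v ∧ X.Move p q) p q := by
  refine ⟨fun e => ?_, fun e => ?_⟩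
  · obtain ⟨Θ, hΘ⟩ := s_COMP1 T _ Γ _ (h.cx v)
    have key : ∀ u s w, X.Pth u s w → ∀ p, X.Pth v p u →
        (Θ (wd Γ (s.map lab))).p⁻¹ (Quot.mk _ p, fun _ => false) =
          (Quot.mk _ (p ++ s), fun _ => false) := by
      intro u s w hs
      induction hs with
      | nil => intro p _; simp [wd_nil]
      | cons a _ ih =>
        intro p hp
        rw [List.map_cons, wd_cons, map_mul, Wr.mul_p, mul_inv_rev, Perm.mul_apply,
          ((hΘ _ _).2.1 _ ⟨p, a, hp, rfl, rfl, rfl⟩).1, ih _ (pth_append.2 ⟨_, hp, pth_one a⟩)]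
        simp
    have h1 := key _ _ _ hp [] (.nil _)
    rw [e, key _ _ _ hq [] (.nil _)] at h1
    exact eqv_loop (Quot.eq.1 (Prod.ext_iff.1 h1).1.symm) hp
  · clear hp hq
    induction e with
    | rel p q m => exact h.move m.2
    | refl => rfl
    | symm _ _ _ ih => exact ih.symm
    | trans _ _ _ _ _ ih ih' => exact ih.trans ih'

end Pool.Agent.P.MP_67c9d4_al.SP
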