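import Pool.Agent.P.MP_67c9d4_al.SP.Main

/-! Groups with a transverse cyclic hierarchy are free-by-cyclic. -/

namespace Pool.Agent.P.MP_67c9d4_al.SP

open Equiv Wr Multiplicative

variable {G Φ : Type} [Group G] [Group Φ]

/-- The tautological cocycle on the infinite cyclic cover. -/
def can (χ : G →* Multiplicative ℤ) : G →* Wr ℤ G :=
  MonoidHom.mk' (fun g => ⟨(Equiv.addRight (χ g).toAdd)⁻¹, fun _ => g⟩) fun g h =>
    Wr.ext (by ext n; simp [add_comm, add_left_comm]) rfl

/-- The tautological cocycle factors through a free group. -/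
def Fac (G : Type) [Group G] (χ : G →* Multiplicative ℤ) : Prop :=
  ∃ (V : Type) (Θ : G →* Wr ℤ (FreeGroup V)) (π : FreeGroup V →* G), (push π).comp Θ = can χ

lemma exists_conj (u w : Wr ℤ Φ) {k : ℤ} (τ : ℤ) (hk : k ≠ 0) (hu : u.p = (Equiv.addRight k)⁻¹)
    (hw : w.p = (Equiv.addRight k)⁻¹) (x : Φ) :
    ∃ X : Wr ℤ Φ, X.p = (Equiv.addRight τ)⁻¹ ∧ X * u = w * X ∧
      ∀ n, ∃ j r : ℤ, X.c n = ((w ^ j).c r)⁻¹ * x * (u ^ j).c (r + τ) := by
  have key : ∀ u : Wr ℤ Φ, u.p = (Equiv.addRight k)⁻¹ → ∀ j r : ℤ,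
      (u ^ (j + 1)).c r = (u ^ j).c r * u.c (r + j * k) := fun u hu j r => by
    rw [zpow_add_one, mul_c, zpow_p, hu, inv_zpow, inv_inv]
    simp
  refine ⟨⟨_, fun n => ((w ^ (n / k)).c (n % k))⁻¹ * x * (u ^ (n / k)).c (n % k + τ)⟩, rfl,
    Wr.ext (by ext n; simp [hu, hw, add_right_comm]) (funext fun n => ?_),
    fun n => ⟨_, _, rfl⟩⟩
  have h1 : (n + k) / k = n / k + 1 := by simpa using Int.add_mul_ediv_right n 1 hk
  have h2 : n % k + n / k * k = n := Int.emod_add_ediv_mul n k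
  simp only [mul_c, hw, inv_inv, Equiv.coe_addRight, h1, Int.add_emod_right, key u hu, key w hw,
    add_right_comm _ τ, h2]
  group

lemma hier_fac {H : Type} [Group H] {χ : H →* Multiplicative ℤ} (h : Hier H χ) : Fac H χ := by
  induction h with
  | free V χ => exact ⟨V, can χ, .id _, rfl⟩
  | @hnn G _ A B φ a χ hA hχ _ ih =>
    obtain ⟨V, Θ, π, e⟩ := ih
    subst hA
    have e1 : ∀ g, push π (Θ g) = can (χ.comp HNNExtension.of) g := DFunLike.congr_fun e
    let ι : FreeGroup V →* FreeGroup (Option V) := FreeGroup.map some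
    let π' : FreeGroup (Option V) →* HNNExtension G _ B φ :=
      FreeGroup.lift fun o => o.elim HNNExtension.t fun v => HNNExtension.of (π (.of v))
    have e2 : ∀ g n, π' (ι ((Θ g).c n)) = HNNExtension.of g := fun g n => by
      have : π'.comp ι = HNNExtension.of.comp π := by ext v; simp [π', ι]
      exact (DFunLike.congr_fun this _).trans (congrArg (fun z => HNNExtension.of (z.c n)) (e1 g))
    let a₀ : Subgroup.zpowers a := ⟨a, Subgroup.mem_zpowers a⟩
    let f := (push ι).comp Θ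
    have h1 : χ (HNNExtension.of (φ a₀ : G)) = χ (HNNExtension.of a) := by
      rw [HNNExtension.equiv_eq_conj]; simp [a₀]
    obtain ⟨X, h2, h3, h4⟩ := exists_conj (f a) (f (φ a₀)) (χ HNNExtension.t).toAdd
      (k := (χ (HNNExtension.of a)).toAdd) hχ (congrArg Wr.p (e1 a))
      (h1 ▸ congrArg Wr.p (e1 (φ a₀))) (.of none)
    have hx : ∀ b : Subgroup.zpowers a, X * f b = f (φ b) * X := by
      rintro ⟨_, j, rfl⟩
      have : (⟨a ^ j, j, rfl⟩ : Subgroup.zpowers a) = a₀ ^ j := rfl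
      rw [this, map_zpow, Subgroup.coe_zpow, Subgroup.coe_zpow, map_zpow, map_zpow]
      exact SemiconjBy.zpow_right h3 j
    refine ⟨_, HNNExtension.lift f X hx, π', HNNExtension.hom_ext (MonoidHom.ext fun g => ?_) ?_⟩
    · simp only [MonoidHom.comp_apply, HNNExtension.lift_of]
      exact Wr.ext (congrArg Wr.p (e1 g) :) (funext (e2 g))
    · simp only [MonoidHom.comp_apply, HNNExtension.lift_t]
      refine Wr.ext h2 (funext fun n => ?_)
      obtain ⟨j, r, h5⟩ := h4 n
      rw [push_c, h5, ← map_zpow, ← map_zpow, map_mul, map_mul, map_inv]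
      change (π' (ι _))⁻¹ * π' (.of none) * π' (ι _) = HNNExtension.t
      rw [e2, e2, ← Subgroup.coe_zpow, ← map_zpow, HNNExtension.equiv_eq_conj]
      simp [π', a₀, mul_assoc]
  | @amal G _ φ χ hχ _ ih =>
    choose V Θ π e using ih
    have e1 : ∀ i g, push (π i) (Θ i g) = can (χ.comp (Monoid.PushoutI.of i)) g :=
      fun i => DFunLike.congr_fun (e i)
    let ι : ∀ i, FreeGroup (V i) →* FreeGroup (Σ i, V i) := fun i => FreeGroup.map (Sigma.mk i)
    let π' : FreeGroup (Σ i, V i) →* Monoid.PushoutI φ :=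
      FreeGroup.lift fun v => Monoid.PushoutI.of v.1 (π v.1 (.of v.2))
    have e2 : ∀ i g n, π' (ι i ((Θ i g).c n)) = Monoid.PushoutI.of i g := fun i g n => by
      have : π'.comp (ι i) = (Monoid.PushoutI.of i).comp (π i) := by ext v; simp [π', ι]
      exact (DFunLike.congr_fun this _).trans
        (congrArg (fun z => Monoid.PushoutI.of i (z.c n)) (e1 i g))
    let f := fun i => (push (ι i)).comp (Θ i)
    have h1 : ∀ i, (f i (φ i (ofAdd 1))).p =
        (Equiv.addRight (χ (Monoid.PushoutI.base φ (ofAdd 1))).toAdd)⁻¹ := fun i =>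
      Monoid.PushoutI.of_apply_eq_base φ i (ofAdd 1) ▸ congrArg Wr.p (e1 i _)
    choose X h2 h3 h4 using fun i => exists_conj _ _ 0 hχ (h1 true) (h1 i) 1
    have h5 : ∀ i, push π' (X i) = 1 := fun i => Wr.ext (by rw [push_p, h2]; ext; simp)
      (funext fun n => by
        obtain ⟨j, r, h5⟩ := h4 i n
        rw [push_c, h5, ← map_zpow (f i), ← map_zpow (f true), mul_one, map_mul, map_inv]
        change (π' (ι _ _))⁻¹ * π' (ι _ _) = 1
        rw [e2, e2, map_zpow, map_zpow, Monoid.PushoutI.of_apply_eq_base,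
          Monoid.PushoutI.of_apply_eq_base, inv_mul_cancel])
    refine ⟨_, Monoid.PushoutI.lift (fun i => (MulAut.conj (X i)⁻¹).toMonoidHom.comp (f i))
      ((f true).comp (φ true)) fun i => MonoidHom.ext_mint ?_, π',
      Monoid.PushoutI.hom_ext_nonempty fun i => MonoidHom.ext fun g => ?_⟩
    · simp [mul_assoc, ← h3 i]
    · simp only [MonoidHom.comp_apply, Monoid.PushoutI.lift_of, MulEquiv.coe_toMonoidHom,
        MulAut.conj_apply]
      rw [map_mul, map_mul, map_inv, map_inv, map_inv, h5, inv_one, inv_one, one_mul, mul_one]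
      exact Wr.ext (congrArg Wr.p (e1 i g) :) (funext (e2 i g))

lemma Fac.free {χ : G →* Multiplicative ℤ} (h : Fac G χ) : IsFreeGroup χ.ker := by
  obtain ⟨V, Θ, π, e⟩ := h
  have e1 : ∀ g, push π (Θ g) = can χ g := DFunLike.congr_fun e
  let f : χ.ker →* FreeGroup V := MonoidHom.mk' (fun g => (Θ g).c 0) fun g h => by
    have : (Θ g).p = (can χ g).p := (congrArg Wr.p (e1 g) :)
    rw [Subgroup.coe_mul, map_mul, mul_c, this]
    simp [can, MonoidHom.mem_ker.1 g.2]
  have hf : Function.Injective f := fun g h e => Subtype.ext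
    ((congrArg (·.c 0) (e1 g)).symm.trans ((congrArg π e).trans (congrArg (·.c 0) (e1 h))))
  exact IsFreeGroup.ofMulEquiv (MonoidHom.ofInjective hf).symm

/-- Finitely generated free-by-cyclic groups. -/
def FreeByCyclic (G : Type) [Group G] : Prop :=
  Group.FG G ∧ ∃ (A : Type) (φ : MulAut (FreeGroup A)), Nonempty (G ≃* MT φ)

theorem hier_fbc {χ : G →* Multiplicative ℤ} (h : Hier G χ) (hχ : χ ≠ 1) : FreeByCyclic G := by
  have := (hier_fac h).free
  obtain ⟨⟨_, t, rfl⟩, ht⟩ := IsCyclic.exists_generator (α := χ.range)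
  have h1 : ∀ g, ∃ j : ℤ, χ t ^ j = χ g := fun g =>
    (ht ⟨_, g, rfl⟩).imp fun j hj => congrArg Subtype.val hj
  have h2 : χ t ≠ 1 := fun e => hχ (MonoidHom.ext fun g => by
    obtain ⟨j, hj⟩ := h1 g
    rw [← hj, e, one_zpow]; rfl)
  let e := IsFreeGroup.toFreeGroup χ.ker
  let φ := (MulAut.congr e) (MulAut.conjNormal t)
  let F : MT φ →* G := SemidirectProduct.lift (χ.ker.subtype.comp e.symm.toMonoidHom)
    (zpowersHom G t) fun j => MonoidHom.ext fun x => by
      have : φ ^ j.toAdd = MulAut.congr e (MulAut.conjNormal (t ^ j.toAdd)) := by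
        rw [map_zpow, map_zpow]
      simp [this, -map_zpow]
  have hF : ∀ x : MT φ, F x = e.symm x.left * t ^ x.right.toAdd := fun x => rfl
  refine ⟨hier_fg h, _, φ, ⟨(MulEquiv.ofBijective F ⟨(injective_iff_map_eq_one F).2 fun x hx => ?_,
    fun g => ?_⟩).symm⟩⟩
  · have h3 : x.right.toAdd = 0 := by
      have h4 := congrArg χ hx
      rw [hF, map_mul, MonoidHom.mem_ker.1 (e.symm x.left).2, one_mul, map_zpow, map_one] at h4
      exact injective_zpow_iff_not_isOfFinOrder.2 (fun h => h2 h.eq_one') (h4.trans (zpow_zero _).symm)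
    rw [hF, h3, zpow_zero, mul_one] at hx
    exact SemidirectProduct.ext ((map_eq_one_iff _ e.symm.injective).1 (Subtype.ext hx)) h3
  · obtain ⟨j, hj⟩ := h1 g
    exact ⟨⟨e ⟨g * (t ^ j)⁻¹, by simp [MonoidHom.mem_ker, hj]⟩, ofAdd j⟩, by simp [hF]⟩

end Pool.Agent.P.MP_67c9d4_al.SP
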