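import Pool.Agent.P.MP_67c9d4_al.SP.Defs
import Pool.Agent.P.MP_67c9d4_al.FC.BasD

/-! Finitely generated subgroups of right-angled Artin groups are RFRS. -/

namespace Pool.Agent.P.MP_67c9d4_al.SP

open Equiv Wr Multiplicative FC TensorProduct

variable {G B : Type} [Group G] [Group B]

/-- The even integers. -/
def ev : Subgroup MZ := Subgroup.zpowers (ofAdd 2)

/-- The elements of `K` on which all characters of `K` are even. -/
def R1 (K : Subgroup G) : Subgroup G := (⨅ f : K →* MZ, ev.comap f).map K.subtype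

lemma mem_R1 {K : Subgroup G} {g : G} : g ∈ R1 K ↔ ∃ h : g ∈ K, ∀ f : K →* MZ, f ⟨g, h⟩ ∈ ev := by
  constructor
  · rintro ⟨⟨g, h⟩, h1, rfl⟩
    exact ⟨h, fun f => Subgroup.mem_iInf.1 h1 f⟩
  · rintro ⟨h, h1⟩
    exact ⟨⟨g, h⟩, Subgroup.mem_iInf.2 h1, rfl⟩

/-- The canonical chain. -/
def RS (G : Type) [Group G] : ℕ → Subgroup G
  | 0 => ⊤
  | n + 1 => R1 (RS G n)

lemma RS_anti : Antitone (RS G) := antitone_nat_of_succ_le fun _ _ hg => (mem_R1.1 hg).1

lemma RS_pull {K : Subgroup G} (ψ : K →* B) {m : ℕ} (h : RS G m ≤ K) (n : ℕ) :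
    ∀ (g : G) (hg : g ∈ RS G (m + n)), ψ ⟨g, h (RS_anti (Nat.le_add_right m n) hg)⟩ ∈ RS B n := by
  induction n with
  | zero => exact fun _ _ => trivial
  | succ n ih =>
    intro g hg
    obtain ⟨h1, h2⟩ := mem_R1.1 hg
    refine mem_R1.2 ⟨ih g h1, fun f => ?_⟩
    exact h2 (f.comp ((ψ.comp (Subgroup.inclusion
      ((RS_anti (Nat.le_add_right m n)).trans h))).codRestrict _ fun x => ih x x.2))

lemma RS_map (F : G →* B) (n : ℕ) {g : G} (hg : g ∈ RS G n) : F g ∈ RS B n :=
  RS_pull (K := ⊤) (F.comp (Subgroup.subtype ⊤)) (m := 0) le_rfl n g (by rwa [zero_add])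

lemma RS_normal (n : ℕ) : (RS G n).Normal :=
  ⟨fun _ hg c => RS_map (MulAut.conj c).toMonoidHom n hg⟩

lemma RS_fi [Group.FG G] (n : ℕ) : (RS G n).FiniteIndex := by
  induction n with
  | zero => exact inferInstanceAs (⊤ : Subgroup G).FiniteIndex
  | succ n ih =>
    have hA : Group.FG (Abelianization (RS G n)) :=
      Group.fg_of_surjective (f := Abelianization.of) fun x => Quot.exists_rep x
    have h1 := Subgroup.finiteIndex_range_powMonoidHom_of_fg (Abelianization (RS G n))
      two_ne_zero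
    have h2 := fi_comap (powMonoidHom (α := Abelianization (RS G n)) 2).range Abelianization.of
    have h3 : (⨅ f : RS G n →* MZ, ev.comap f).FiniteIndex := by
      refine Subgroup.finiteIndex_of_le (H := ((powMonoidHom (α := Abelianization (RS G n))
        2).range).comap Abelianization.of) (le_iInf fun f x hx => ?_)
      obtain ⟨y, hy⟩ := hx
      have e : f x = Abelianization.lift f y ^ 2 := by
        rw [← map_pow, ← Abelianization.lift_apply_of f x, ← hy]; rfl
      refine ⟨(Abelianization.lift f y).toAdd, ?_⟩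
      rw [e]
      apply toAdd.injective
      simp [mul_comm]
    exact ⟨by
      rw [RS, R1, Subgroup.index_map_subtype]
      exact mul_ne_zero h3.index_ne_zero ih.index_ne_zero⟩

lemma rad_char {g : G} (hg : g ∈ rad G) (f : G →* MZ) : f g = 1 := by
  let φ : Additive (Abelianization G) →ₗ[ℤ] ℤ :=
    (MonoidHom.toAdditiveLeft (Abelianization.lift f)).toIntLinearMap
  have h1 := congrArg (TensorProduct.lift ((LinearMap.lsmul ℤ ℚ).comp φ)) hg
  rw [TensorProduct.lift.tmul, map_zero] at h1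
  have h2 : φ (Additive.ofMul (Abelianization.of g)) = 0 := by simpa using h1
  exact toAdd.injective h2

lemma char_of_not_rad [Group.FG G] {g : G} (hg : g ∉ rad G) : ∃ f : G →* MZ, f g ≠ 1 := by
  have hA : Group.FG (Abelianization G) :=
    Group.fg_of_surjective (f := Abelianization.of) fun x => Quot.exists_rep x
  set M := Additive (Abelianization G)
  have hM : Module.Finite ℤ M := Module.Finite.iff_addGroup_fg.2 inferInstance
  set x : M := Additive.ofMul (Abelianization.of g)
  have h1 : (Submodule.torsion ℤ M).mkQ x ≠ 0 := by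
    intro h
    obtain ⟨⟨n, hn⟩, h2⟩ := (Submodule.mem_torsion_iff x).1 ((Submodule.Quotient.mk_eq_zero _).1 h)
    have hn0 : (n : ℚ) ≠ 0 := Int.cast_ne_zero.2 (nonZeroDivisors.ne_zero hn)
    apply hg
    have h3 : (1 : ℚ) = n • (n : ℚ)⁻¹ := by rw [zsmul_eq_mul, mul_inv_cancel₀ hn0]
    have h4 : n • x = 0 := h2
    change x ⊗ₜ[ℤ] (1 : ℚ) = 0
    rw [h3, ← TensorProduct.smul_tmul, h4, TensorProduct.zero_tmul]
  obtain ⟨φ, hφ⟩ := not_forall.1 (mt (Module.forall_dual_apply_eq_zero_iff ℤ _).1 h1)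
  refine ⟨(AddMonoidHom.toMultiplicativeRight
    (φ.comp (Submodule.torsion ℤ M).mkQ).toAddMonoidHom).comp Abelianization.of, fun h => hφ ?_⟩
  exact congrArg toAdd h

section dbl
variable {T : Type} (Γ : SimpleGraph T) (v : T)

/-- The double of `Γ` along the star of `v`. -/
def dG : SimpleGraph (T × Bool) where
  Adj x y := Γ.Adj x.1 y.1 ∧ (x.2 = y.2 ∨ (x.1 = v ∨ Γ.Adj x.1 v) ∨ (y.1 = v ∨ Γ.Adj y.1 v))
  symm := ⟨fun _ _ h => ⟨h.1.symm, h.2.elim (fun e => Or.inl e.symm) fun e => Or.inr e.symm⟩⟩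
  loopless := ⟨fun _ h => h.1.ne rfl⟩

open Classical in
/-- The images of the generators. -/
noncomputable def dg (s : Bool) (a : T) : Wr Bool (RAAG (dG Γ v)) :=
  if a = v then ⟨swap true false, fun i => if i = s then PresentedGroup.of (v, false) else 1⟩
  else ⟨1, fun i => PresentedGroup.of (a, if Γ.Adj a v then false else i)⟩

variable {Γ v}

lemma dg_comm_v (s : Bool) {b : T} (h : Γ.Adj v b) : Commute (dg Γ v s v) (dg Γ v s b) := by
  rw [dg, dg, if_pos rfl, if_neg h.ne']
  refine Wr.ext (by simp) (funext fun i => ?_)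
  simp only [mul_c, if_pos h.symm, inv_one, Perm.one_apply]
  split_ifs
  · exact (of_comm (Γ := dG Γ v) (a := (v, false)) (b := (b, false)) ⟨h, Or.inl rfl⟩).eq
  · simp

lemma dg_comm (s : Bool) {a b : T} (h : Γ.Adj a b) : Commute (dg Γ v s a) (dg Γ v s b) := by
  by_cases ha : a = v
  · subst ha; exact dg_comm_v s h
  by_cases hb : b = v
  · subst hb; exact (dg_comm_v s h.symm).symm
  rw [dg, dg, if_neg ha, if_neg hb]
  refine Wr.ext (by simp) (funext fun i => ?_)
  simp only [mul_c, inv_one, Perm.one_apply]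
  refine (of_comm (Γ := dG Γ v) ⟨h, ?_⟩).eq
  by_cases h1 : Γ.Adj a v
  · exact Or.inr (Or.inl (Or.inr h1))
  by_cases h2 : Γ.Adj b v
  · exact Or.inr (Or.inr (Or.inr h2))
  exact Or.inl (by simp [h1, h2])

/-- The step: an element of the first term of the chain whose word starts with `v` maps to a
shorter word in the double. -/
lemma step (s : Bool) (L : List (T × Bool)) : ∃ (K : Subgroup (RAAG Γ))
    (ψ : K →* RAAG (dG Γ v)), RS (RAAG Γ) 1 ≤ K ∧ Function.Injective ψ ∧
    ∀ h : wd Γ ((v, s) :: L) ∈ K, ∃ M, M.length ≤ L.length ∧ ψ ⟨_, h⟩ = wd _ M := by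
  classical
  obtain ⟨Θ, hΘ⟩ := raag_lift (Γ := Γ) (dg Γ v s) fun a b h => dg_comm s h
  obtain ⟨χ, hχ⟩ := raag_lift (Γ := Γ) (W := MZ) (fun a => if a = v then ofAdd 1 else 1)
    fun a b _ => Commute.all _ _
  let u := wd Γ [(v, s)]
  let t : Bool → RAAG Γ := fun i => if i then u else 1
  let e : T → RAAG Γ := fun a => if a = v then PresentedGroup.of v ^ 2 else PresentedGroup.of a
  have hu : ∀ g, Commute g (PresentedGroup.of v) → ∀ i, t i * g * (t i)⁻¹ = g := by
    intro g hg i
    have : Commute g (t i) := by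
      cases i
      · exact Commute.one_right _
      · cases s
        · exact (wd_false (Γ := Γ) v ▸ hg.inv_right : Commute g (wd Γ [(v, false)]))
        · exact hg
    rw [← this.eq, mul_inv_cancel_right]
  have he : ∀ a, a = v ∨ Γ.Adj a v → ∀ i, t i * e a * (t i)⁻¹ = e a := by
    rintro a (rfl | h)
    · exact hu _ (by simp [e])
    · exact hu _ (by simpa only [e, if_neg h.ne] using of_comm h)
  have hc : ∀ a b, Γ.Adj a b → ∀ i, Commute (t i * e a * (t i)⁻¹) (t i * e b * (t i)⁻¹) := by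
    intro a b h i
    have h1 : Commute (e a) (e b) := by
      simp only [e]
      split_ifs with h1 h2 h2
      · exact Commute.refl _
      · exact (h1 ▸ of_comm h).pow_left 2
      · exact (h2 ▸ of_comm h).pow_right 2
      · exact of_comm h
    exact h1.map (MulAut.conj (t i))
  obtain ⟨θ, hθ⟩ := raag_lift (Γ := dG Γ v) (fun x => t x.2 * e x.1 * (t x.2)⁻¹) (by
    rintro ⟨a, i⟩ ⟨b, j⟩ ⟨h, h1 | h1 | h1⟩
    · cases h1; exact hc a b h i
    · simpa only [he a h1] using hc a b h j
    · simpa only [he b h1] using hc a b h i)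
  have key : ∀ g i, θ ((Θ g).c i) = t i * g * (t ((Θ g).p⁻¹ i))⁻¹ := by
    intro g
    induction g using PresentedGroup.induction_on with
    | H g =>
    induction g using FreeGroup.induction_on with
    | C1 => intro i; simp
    | of a =>
      intro i
      change θ ((Θ (PresentedGroup.of a)).c i) =
        t i * PresentedGroup.of a * (t ((Θ (PresentedGroup.of a)).p⁻¹ i))⁻¹
      rw [hΘ, dg]
      split_ifs with ha h1
      · subst ha
        cases i <;> cases s <;> simp [hθ, t, e, u, wd_true, wd_false, pow_two]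
      · simp only [hθ, inv_one, Perm.one_apply, e, if_neg ha]
        rw [hu _ (of_comm h1), hu _ (of_comm h1)]
      · simp only [hθ, inv_one, Perm.one_apply, e, if_neg ha]
    | inv_of a ih =>
      intro i
      rw [map_inv, map_inv, inv_c, map_inv, ih]
      simp [mul_assoc]
    | mul a b iha ihb =>
      intro i
      rw [map_mul, map_mul, mul_c, map_mul, iha, ihb]
      simp [mul_assoc]
  have hp : pHom.comp Θ = (zpowersHom _ (swap true false)).comp χ := raag_ext fun a => by
    simp only [MonoidHom.comp_apply, hΘ, hχ, dg]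
    split_ifs <;> simp
  have len : ∀ (L : List (T × Bool)) i, ∃ M, M.length ≤ L.length ∧ (Θ (wd Γ L)).c i = wd _ M := by
    have one : ∀ a i, ∃ M : List ((T × Bool) × Bool), M.length ≤ 1 ∧
        (Θ (PresentedGroup.of a)).c i = wd _ M ∧ ∃ M' : List ((T × Bool) × Bool),
          M'.length ≤ 1 ∧ ((Θ (PresentedGroup.of a)).c i)⁻¹ = wd _ M' := by
      intro a i
      rw [hΘ, dg]
      split_ifs
      · dsimp only
        split_ifs
        · exact ⟨[(_, true)], le_rfl, rfl, [(_, false)], le_rfl, (wd_false _).symm⟩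
        · exact ⟨[], zero_le_one, rfl, [], zero_le_one, inv_one⟩
      · exact ⟨[(_, true)], le_rfl, rfl, [(_, false)], le_rfl, (wd_false _).symm⟩
      · exact ⟨[(_, true)], le_rfl, rfl, [(_, false)], le_rfl, (wd_false _).symm⟩
    intro L
    induction L with
    | nil => exact fun i => ⟨[], le_rfl, by rw [wd_nil, map_one]; rfl⟩
    | cons x L ih =>
      intro i
      obtain ⟨M, h1, h2⟩ := ih ((Θ (wd Γ [x])).p⁻¹ i)
      have : ∃ M : List ((T × Bool) × Bool), M.length ≤ 1 ∧ (Θ (wd Γ [x])).c i = wd _ M := by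
        obtain ⟨a, _ | _⟩ := x
        · rw [wd_false, map_inv, inv_c]; exact (one a _).choose_spec.2.2
        · exact ⟨_, (one a i).choose_spec.1, (one a i).choose_spec.2.1⟩
      obtain ⟨M', h3, h4⟩ := this
      refine ⟨M' ++ M, by simp only [List.length_append, List.length_cons]; omega, ?_⟩
      rw [wd_cons, map_mul, mul_c, h2, h4, wd_append]
  let K : Subgroup (RAAG Γ) := (MulAction.stabilizer (Perm Bool) false).comap (pHom.comp Θ)
  have hK : ∀ g : K, (Θ g).p⁻¹ false = false := fun g => Perm.inv_eq_iff_eq.2 (Eq.symm g.2)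
  let ψ : K →* RAAG (dG Γ v) := MonoidHom.mk' (fun g => (Θ g).c false) fun a b => by
    rw [Subgroup.coe_mul, map_mul, mul_c, hK]
  refine ⟨K, ψ, fun g hg => ?_, (injective_iff_map_eq_one ψ).2 fun g hg => ?_, fun h => ?_⟩
  · obtain ⟨_, h1⟩ := mem_R1.1 hg
    obtain ⟨k, hk⟩ := h1 (χ.comp (Subgroup.subtype _))
    have hk' : χ g = ofAdd 2 ^ k := hk.symm
    change (pHom.comp Θ g) false = false
    have h2 : zpowersHom _ (swap true false) (ofAdd 2) = 1 := by
      rw [zpowersHom_apply, toAdd_ofAdd, zpow_two, swap_mul_self]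
    rw [hp, MonoidHom.comp_apply, hk', map_zpow, h2, one_zpow]; rfl
  · have h1 := key g false
    rw [hK, show (Θ g).c false = 1 from hg, map_one] at h1
    exact Subtype.ext (by simpa [t] using h1.symm)
  · obtain ⟨M, h1, h2⟩ := len L ((Θ u).p⁻¹ false)
    refine ⟨M, h1, ?_⟩
    have h3 : (Θ u).c false = 1 := by
      cases s
      · simp [u, wd_false, hΘ, dg]
      · simp [u, wd_true, hΘ, dg]
    change (Θ (wd Γ ((v, s) :: L))).c false = _
    rw [wd_cons, map_mul, mul_c, h2, h3, one_mul]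

end dbl

lemma raag_RS (n : ℕ) : ∀ (T : Type) (Γ : SimpleGraph T) (L : List (T × Bool)), L.length ≤ n →
    wd Γ L ∈ RS (RAAG Γ) n → wd Γ L = 1 := by
  induction n with
  | zero =>
    intro T Γ L h _
    rw [List.length_eq_zero_iff.1 (Nat.le_zero.1 h), wd_nil]
  | succ n ih =>
    rintro T Γ (_ | ⟨⟨v, s⟩, L⟩) h hg
    · rfl
    obtain ⟨K, ψ, h1, h2, h3⟩ := step (Γ := Γ) (v := v) s L
    have h4 := RS_pull ψ h1 n _ (by rwa [add_comm])
    obtain ⟨M, h5, h6⟩ := h3 (h1 (RS_anti (Nat.le_add_left 1 n) hg))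
    rw [h6] at h4
    have h7 := ih _ _ M (h5.trans (Nat.le_of_succ_le_succ h)) h4
    rw [← h6, map_eq_one_iff _ h2] at h7
    exact congrArg Subtype.val h7

theorem rfrs_of_emb [Group.FG G] {T : Type} {Γ : SimpleGraph T} (f : G →* RAAG Γ)
    (hf : Function.Injective f) : RFRS G := by
  refine ⟨inferInstance, RS G, rfl, RS_anti, fun i => ⟨RS_normal i, RS_fi i⟩, ?_, fun i g hg =>
    mem_R1.2 ⟨g.2, fun χ => by rw [rad_char hg χ]; exact one_mem _⟩⟩
  refine eq_bot_iff.2 fun g hg => ?_
  obtain ⟨L, hL⟩ := wd_surj (f g)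
  have h1 := RS_map f L.length (Subgroup.mem_iInf.1 hg L.length)
  rw [← hL] at h1
  exact (map_eq_one_iff f hf).1 (hL ▸ raag_RS _ T Γ L le_rfl h1)

end Pool.Agent.P.MP_67c9d4_al.SP
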